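import Pool.Agent.helper51.VF.SpecC

set_option autoImplicit false

namespace Pool.Agent.VF

open Pool.Agent.PC Pool.Agent.QS MvPolynomial

universe u

theorem IVT (hPLV : PLV_stmt.{u}) (hLCF : QS.LCF_stmt.{u}) (hWVL : QS.WVL_stmt.{u})
    (hYWV : QS.YWV_stmt.{u}) : IVT_stmt.{u} := by
  intro k R A F K _ _ _ _ _ _ _ _ _ _ _ _ _ _ _ _ _ _ _ _ _ _ _ _ _ _ _ _ n p _ _ hFol x hx hK hF
    hdim h2 hnp ω μ g hω hg hμ m _ hDA t ht htm δ hδ hLoc hDisc hFix
  have hnoe : IsNoetherianRing A := Algebra.FiniteType.isNoetherianRing k A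
  obtain ⟨-, -, hm⟩ := hLCF k A K n hdim
  obtain ⟨⟨y, hy⟩, hφ, -⟩ := hm m
  obtain ⟨φ, hT⟩ := hφ y hy
  obtain ⟨v, hv⟩ := hWVL k A K n m y φ hT (fun _ => 1) (Or.inl ⟨⟨0, by omega⟩, rfl⟩)
  obtain ⟨-, -, -, hout, hpow⟩ := hYWV k A K n m y φ hT (fun _ => 1) v hv
  have h1 : ∀ a ∈ m, Ge v 1 (algebraMap A K a) := by
    intro a ha
    have h3 := hpow 1 (fun _ => le_rfl) 1 a (by rwa [pow_one])
    exact h3
  have hmp : m.IsPrime := inferInstance
  by_contra hcon
  have key := (hPLV k R A F K n p hFol x hx hK hF h2 ω μ g hω hg hμ m hDA t ht δ hδ hLoc hDisc y φ hy hT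
    (fun _ => 1) v le_rfl le_rfl hv 0 (by
      intro i
      obtain ⟨a, s, hs, ha, hd⟩ := hFix (y i)
      rw [hd]
      have hs0 : algebraMap A K s ≠ 0 := by
        intro h0
        have h4 : s = 0 := IsFractionRing.injective A K (by rw [h0, map_zero])
        rw [h4] at hs
        exact hs m.zero_mem
      rcases h1 a ha with h3 | h3
      · rw [h3, zero_div]
        exact Or.inl rfl
      · by_cases ha0 : algebraMap A K a = 0
        · rw [ha0, zero_div]
          exact Or.inl rfl
        · right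
          have h5 := hv.1.mul (algebraMap A K a / algebraMap A K s) (algebraMap A K s)
            (div_ne_zero ha0 hs0) hs0
          rw [div_mul_cancel₀ _ hs0, hout s hs, add_zero] at h5
          rw [← h5]
          push_cast
          linarith)).2 hcon
  have ht1 : (1 : ℤ) ≤ v (algebraMap A K t) := by
    rcases h1 t htm with h3 | h3
    · exfalso
      exact ht (IsFractionRing.injective A K (by rw [h3, map_zero]))
    · exact h3
  rw [Finset.sum_const, Finset.card_univ, Fintype.card_fin, mul_zero, sub_zero, Nat.cast_one,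
    nsmul_eq_mul, mul_one] at key
  have hnp' : (n : ℤ) ≤ p := by exact_mod_cast hnp
  have hp0 : (0 : ℤ) ≤ p := by positivity
  nlinarith

end Pool.Agent.VF
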