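import Pool.Agent.helper51.VF.SpecA

set_option autoImplicit false

namespace Pool.Agent.VF

open Pool.Agent.PC Pool.Agent.QS

universe u

section

variable {F K : Type u} [Field F] [Field K] [Algebra F K]

/-- Leibniz rule for the iterates -/
private theorem PCL_leib (δ : Derivation F K K) (n : ℕ) (a b : K) :
    (⇑δ)^[n] (a * b) = ∑ ij ∈ Finset.HasAntidiagonal.antidiagonal n,
      Nat.choose n ij.1 • ((⇑δ)^[ij.1] a * (⇑δ)^[ij.2] b) := by
  induction n with
  | zero => simp
  | succ n ih =>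
    rw [Finset.sum_antidiagonal_choose_succ_nsmul (M := K) (fun i j => (⇑δ)^[i] a * (⇑δ)^[j] b) n,
      Function.iterate_succ_apply', ih, map_sum, ← Finset.sum_add_distrib]
    refine Finset.sum_congr rfl fun ij hij => ?_
    rw [map_nsmul, Derivation.leibniz, smul_eq_mul, smul_eq_mul,
      ← Function.iterate_succ_apply' (⇑δ) ij.2 b, ← Function.iterate_succ_apply' (⇑δ) ij.1 a, smul_add,
      Nat.choose_symm_of_eq_add (Finset.HasAntidiagonal.mem_antidiagonal.1 hij).symm, mul_comm ((⇑δ)^[ij.2] b)]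

private theorem PCL_mul (p : ℕ) [hp : Fact p.Prime] [CharP K p] (δ : Derivation F K K) (a b : K) :
    (⇑δ)^[p] (a * b) = a * (⇑δ)^[p] b + b * (⇑δ)^[p] a := by
  rw [PCL_leib, Finset.Nat.sum_antidiagonal_eq_sum_range_succ
    (fun i j => Nat.choose p i • ((⇑δ)^[i] a * (⇑δ)^[j] b)) p]
  have hp0 : 0 < p := hp.out.pos
  obtain ⟨q, hq⟩ : ∃ q, p = q + 1 := ⟨p - 1, by omega⟩
  have h0 : ∀ i ∈ Finset.range q, Nat.choose p (i + 1) • ((⇑δ)^[i + 1] a * (⇑δ)^[p - (i + 1)] b) = 0 := by
    intro i hi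
    rw [Finset.mem_range] at hi
    have h1 : p ∣ Nat.choose p (i + 1) := hp.out.dvd_choose_self (by omega) (by omega)
    rw [nsmul_eq_mul, (CharP.cast_eq_zero_iff K p _).2 h1, zero_mul]
  have h2 : Finset.range (p + 1) = Finset.range (q + 1 + 1) := by rw [hq]
  rw [show p.succ = q + 1 + 1 by omega, Finset.sum_range_succ, Finset.sum_range_succ',
    Finset.sum_eq_zero h0, ← hq, Nat.choose_zero_right, Nat.choose_self, Nat.sub_zero, Nat.sub_self,
    one_smul, one_smul, Function.iterate_zero, id_eq, id_eq, zero_add]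
  ring

/-- the `p`-th power of a derivation -/
private noncomputable def PCL_pow (p : ℕ) [Fact p.Prime] [CharP K p] (δ : Derivation F K K) :
    Derivation F K K :=
  Derivation.mk' ((δ : K →ₗ[F] K) ^ p) (by
    intro a b
    rw [Module.End.pow_apply, Module.End.pow_apply, Module.End.pow_apply, smul_eq_mul, smul_eq_mul]
    exact PCL_mul p δ a b)

private theorem PCL_pow_apply (p : ℕ) [Fact p.Prime] [CharP K p] (δ : Derivation F K K) (x : K) :
    PCL_pow p δ x = (⇑δ)^[p] x := by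
  have h := Module.End.pow_apply (δ : K →ₗ[F] K) p x
  exact h

end

theorem PCL (hFDR : FDR_stmt.{u}) : PCL_stmt.{u} := by
  intro F K _ _ _ p _ _ hfin hpow δ hδ
  obtain ⟨-, h2, h3⟩ := hFDR F K p hfin hpow
  obtain ⟨h, hh⟩ := h2 δ (PCL_pow p δ) hδ
  have hx : ∀ x : K, (⇑δ)^[p] x = h * δ x := by
    intro x
    rw [← PCL_pow_apply p δ x, hh]
    rfl
  obtain ⟨x, hx0⟩ : ∃ x : K, δ x ≠ 0 := by
    by_contra hcon
    push Not at hcon
    exact hδ (Derivation.ext hcon)
  have h4 : δ h = 0 := by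
    have h5 : δ ((⇑δ)^[p] x) = (⇑δ)^[p] (δ x) := by
      rw [← Function.iterate_succ_apply (⇑δ) p x, Function.iterate_succ_apply' (⇑δ) p x]
    rw [hx x, hx (δ x), Derivation.leibniz, smul_eq_mul, smul_eq_mul] at h5
    have h6 : δ x * δ h = 0 := by
      linear_combination h5
    exact (mul_eq_zero.1 h6).resolve_left hx0
  obtain ⟨g, hg⟩ := h3 δ hδ h h4
  refine ⟨g, fun x => ?_⟩
  rw [hg]
  exact hx x

end Pool.Agent.VF
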